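import Pool.Agent.Y174.SD.Stm

/-! # Multiplicative polynomial functions on matrices are powers of the determinant -/

set_option autoImplicit false

open MvPolynomial

namespace Pool.Agent.Y108.SD

theorem eval_aeval {k : Type} [Field k] {σ : Type} (f : σ → Polynomial k) (x : k)
    (F : MvPolynomial σ k) :
    Polynomial.eval x (MvPolynomial.aeval f F) = MvPolynomial.eval (fun p => (f p).eval x) F := by
  induction F using MvPolynomial.induction_on with
  | C a => simp
  | add p q hp hq => rw [map_add, map_add, Polynomial.eval_add, hp, hq]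
  | mul_X p i hp => rw [map_mul, map_mul, Polynomial.eval_mul, hp]; simp

/-- polynomials which agree at all nonzero points -/
theorem poly_ext {k : Type} [Field k] [Infinite k] {p q : Polynomial k}
    (h : ∀ x, x ≠ 0 → p.eval x = q.eval x) : p = q := by
  have h1 : Polynomial.X * p = Polynomial.X * q := by
    apply Polynomial.funext
    intro x
    rw [Polynomial.eval_mul, Polynomial.eval_mul]
    by_cases hx : x = 0
    · simp [hx]
    · rw [h x hx]
  exact mul_left_cancel₀ Polynomial.X_ne_zero h1

theorem t_CHAR : Pool.Agent.Y174.SD.S_CHAR := by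
  classical
  intro k _ _ n F hmul hne
  obtain ⟨ev, hev⟩ : ∃ ev : Matrix (Fin n) (Fin n) k → k,
      ∀ g, ev g = eval (fun p => g p.1 p.2) F := ⟨_, fun _ => rfl⟩
  simp only [← hev] at hmul hne ⊢
  have h1 : ev 1 = 1 := by
    have h2 := hmul 1 1 (by simp) (by simp)
    rw [mul_one] at h2
    exact (mul_right_eq_self₀.1 h2.symm).resolve_right (hne 1 (by simp))
  -- transvections
  have htr : ∀ (i j : Fin n) (_ : i ≠ j) (x : k), ev (Matrix.transvection i j x) = 1 := by
    intro i j hij x
    set q : Polynomial k := MvPolynomial.aeval (fun p : Fin n × Fin n =>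
      Polynomial.C ((1 : Matrix (Fin n) (Fin n) k) p.1 p.2) +
        (if p = (i, j) then Polynomial.X else 0)) F with hq
    have hqe : ∀ x, q.eval x = ev (Matrix.transvection i j x) := by
      intro x
      rw [hq, eval_aeval, hev]
      congr 1
      refine congrArg _ ?_
      funext p
      obtain ⟨a, b⟩ := p
      simp only [Matrix.transvection, Matrix.add_apply, Matrix.single_apply, Polynomial.eval_add,
        Polynomial.eval_C, Prod.mk.injEq]
      congr 1
      by_cases h : a = i ∧ b = j
      · rw [if_pos h, if_pos ⟨h.1.symm, h.2.symm⟩, Polynomial.eval_X]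
      · rw [if_neg h, if_neg (fun h' => h ⟨h'.1.symm, h'.2.symm⟩), Polynomial.eval_zero]
    have hdet : ∀ x : k, (Matrix.transvection i j x).det ≠ 0 := by
      intro x
      rw [Matrix.det_transvection_of_ne i j hij x]
      exact one_ne_zero
    have hprod : q * q.comp (-Polynomial.X) = 1 := by
      apply Polynomial.funext
      intro x
      rw [Polynomial.eval_mul, Polynomial.eval_comp, Polynomial.eval_neg, Polynomial.eval_X, hqe,
        hqe, ← hmul _ _ (hdet _) (hdet _), Matrix.transvection_mul_transvection_same i j hij,
        add_neg_cancel, Matrix.transvection_zero, h1, Polynomial.eval_one]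
    have hu : IsUnit q := IsUnit.of_mul_eq_one _ hprod
    have hd := Polynomial.natDegree_eq_zero_of_isUnit hu
    have hc := Polynomial.eq_C_of_natDegree_eq_zero hd
    rw [← hqe, hc, Polynomial.eval_C]
    have h0 : q.eval 0 = 1 := by rw [hqe, Matrix.transvection_zero, h1]
    rw [hc, Polynomial.eval_C] at h0
    exact h0
  -- diagonal matrices with one entry
  set Dg : Fin n → k → Matrix (Fin n) (Fin n) k := fun i x =>
    Matrix.diagonal (Function.update 1 i x) with hDg
  have hDdet : ∀ i x, (Dg i x).det = x := by
    intro i x
    rw [hDg]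
    simp only
    rw [Matrix.det_diagonal, Finset.prod_update_of_mem (Finset.mem_univ i)]
    simp
  have hDmul : ∀ i x y, Dg i x * Dg i y = Dg i (x * y) := by
    intro i x y
    rw [hDg]
    simp only
    rw [Matrix.diagonal_mul_diagonal]
    congr 1
    funext a
    by_cases ha : a = i
    · subst ha; simp
    · simp [ha]
  have hq : ∀ i : Fin n, ∃ w : ℕ, ∀ y, y ≠ 0 → ev (Dg i y) = y ^ w := by
    intro i
    set q : Polynomial k := MvPolynomial.aeval (fun p : Fin n × Fin n =>
      if p.1 = p.2 then (if p.1 = i then Polynomial.X else 1) else 0) F with hq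
    have hqe : ∀ x, q.eval x = ev (Dg i x) := by
      intro x
      rw [hq, eval_aeval, hev]
      congr 1
      refine congrArg _ ?_
      funext p
      obtain ⟨a, b⟩ := p
      simp only [hDg, Matrix.diagonal_apply]
      by_cases h : a = b
      · subst h
        by_cases h' : a = i
        · subst h'; simp
        · simp [h']
      · simp [h]
    have hq0 : q ≠ 0 := by
      intro h0
      apply hne 1 (by simp)
      have : Dg i 1 = 1 := by
        rw [hDg]
        simp
      rw [← this, ← hqe, h0, Polynomial.eval_zero]
    refine ⟨q.natDegree, fun y hy => ?_⟩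
    have h2 : q.comp (Polynomial.C y * Polynomial.X) = Polynomial.C (q.eval y) * q := by
      apply poly_ext
      intro x hx
      rw [Polynomial.eval_comp, Polynomial.eval_mul, Polynomial.eval_mul, Polynomial.eval_C,
        Polynomial.eval_C, Polynomial.eval_X, hqe, hqe, hqe, ← hDmul]
      exact hmul _ _ (by rw [hDdet]; exact hy) (by rw [hDdet]; exact hx)
    have h3 := congrArg (fun p => Polynomial.coeff p q.natDegree) h2
    simp only [Polynomial.coeff_C_mul, Polynomial.comp_C_mul_X_coeff] at h3
    have h4 : q.coeff q.natDegree ≠ 0 := by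
      rw [Polynomial.coeff_natDegree]
      exact Polynomial.leadingCoeff_ne_zero.2 hq0
    rw [mul_comm] at h3
    have h5 := mul_right_cancel₀ h4 h3
    rw [← hqe]
    exact h5.symm
  choose w hw using hq
  have hperm : ∀ (σ : Equiv.Perm (Fin n)) (M : Matrix (Fin n) (Fin n) k), M.det ≠ 0 →
      ev (M.submatrix σ σ) = ev M := by
    intro σ M hM
    have hPP : σ.toPEquiv.toMatrix * σ.symm.toPEquiv.toMatrix =
        (1 : Matrix (Fin n) (Fin n) k) := by
      rw [PEquiv.mul_toMatrix_toPEquiv, PEquiv.toMatrix_toPEquiv_eq]
      simp
    have hd1 : ((σ.toPEquiv.toMatrix : Matrix (Fin n) (Fin n) k)).det ≠ 0 := by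
      intro h
      have := congrArg Matrix.det hPP
      rw [Matrix.det_mul, h, zero_mul, Matrix.det_one] at this
      exact zero_ne_one this
    have hd2 : ((σ.symm.toPEquiv.toMatrix : Matrix (Fin n) (Fin n) k)).det ≠ 0 := by
      intro h
      have := congrArg Matrix.det hPP
      rw [Matrix.det_mul, h, mul_zero, Matrix.det_one] at this
      exact zero_ne_one this
    have e : M.submatrix σ σ = σ.toPEquiv.toMatrix * M * σ.symm.toPEquiv.toMatrix := by
      rw [PEquiv.toMatrix_toPEquiv_mul, PEquiv.mul_toMatrix_toPEquiv, Matrix.submatrix_submatrix]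
      rfl
    rw [e, hmul _ _ (by rw [Matrix.det_mul]; exact mul_ne_zero hd1 hM) hd2, hmul _ _ hd1 hM,
      mul_right_comm, ← hmul _ _ hd1 hd2, hPP, h1, one_mul]
  have hww : ∀ i j, w i = w j := by
    intro i j
    have h2 : (Polynomial.X : Polynomial k) ^ w i = Polynomial.X ^ w j := by
      apply poly_ext
      intro y hy
      rw [Polynomial.eval_pow, Polynomial.eval_pow, Polynomial.eval_X, ← hw i y hy, ← hw j y hy]
      rw [← hperm (Equiv.swap i j) (Dg i y) (by rw [hDdet]; exact hy)]
      congr 1
      rw [hDg]
      simp only
      rw [Matrix.submatrix_diagonal_equiv]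
      congr 1
      funext a
      simp only [Function.comp_apply]
      by_cases ha : a = j
      · subst ha
        simp
      · by_cases ha' : a = i
        · subst ha'
          rw [Equiv.swap_apply_left, Function.update_of_ne (Ne.symm ha),
            Function.update_of_ne ha]
          rfl
        · rw [Equiv.swap_apply_of_ne_of_ne ha' ha, Function.update_of_ne ha',
            Function.update_of_ne ha]
    have := congrArg Polynomial.natDegree h2
    simpa using this
  obtain ⟨W, hW⟩ : ∃ W : ℕ, ∀ i y, y ≠ 0 → ev (Dg i y) = y ^ W := by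
    rcases isEmpty_or_nonempty (Fin n) with h | ⟨⟨i0⟩⟩
    · exact ⟨0, fun i => isEmptyElim i⟩
    · exact ⟨w i0, fun i y hy => by rw [hw i y hy, hww i i0]⟩
  -- diagonal matrices
  have hdiag : ∀ v : Fin n → k, (∀ i, v i ≠ 0) → ev (Matrix.diagonal v) = (∏ i, v i) ^ W := by
    intro v hv
    have hs : ∀ s : Finset (Fin n),
        ev (Matrix.diagonal (fun a => if a ∈ s then v a else 1)) = (∏ i ∈ s, v i) ^ W := by
      intro s
      induction s using Finset.induction_on with
      | empty => simpa using h1
      | insert i s hi ih =>
        have e : Matrix.diagonal (fun a => if a ∈ insert i s then v a else 1) =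
            Dg i (v i) * Matrix.diagonal (fun a => if a ∈ s then v a else 1) := by
          rw [hDg]
          simp only
          rw [Matrix.diagonal_mul_diagonal]
          congr 1
          funext a
          by_cases ha : a = i
          · subst ha; simp [hi]
          · simp [ha]
        rw [e, hmul _ _ (by rw [hDdet]; exact hv i), ih, hW i _ (hv i), Finset.prod_insert hi,
          mul_pow]
        rw [Matrix.det_diagonal, Finset.prod_ne_zero_iff]
        intro a _
        by_cases ha : a ∈ s
        · simp [ha, hv a]
        · simp [ha]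
    have := hs Finset.univ
    simpa using this
  -- invertible matrices
  have hinv : ∀ g : Matrix (Fin n) (Fin n) k, g.det ≠ 0 → ev g = g.det ^ W := by
    intro g hg
    refine Matrix.diagonal_transvection_induction_of_det_ne_zero
      (fun g => ev g = g.det ^ W) g hg ?_ ?_ ?_
    · intro v hv
      rw [Matrix.det_diagonal] at hv ⊢
      exact hdiag v fun i => Finset.prod_ne_zero_iff.1 hv i (Finset.mem_univ i)
    · intro t
      rw [t.det, one_pow]
      exact htr t.i t.j t.hij t.c
    · intro A B hA hB h2 h3
      rw [hmul _ _ hA hB, h2, h3, Matrix.det_mul, mul_pow]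
  -- all matrices
  refine ⟨W, fun g => ?_⟩
  have hdet : ∀ x : Fin n × Fin n → k, eval x (Matrix.mvPolynomialX (Fin n) (Fin n) k).det =
      (Matrix.of fun i j => x (i, j)).det := by
    intro x
    rw [RingHom.map_det]
    congr 1
    ext i j
    simp [Matrix.mvPolynomialX]
  have hpoly : (F - (Matrix.mvPolynomialX (Fin n) (Fin n) k).det ^ W) *
      (Matrix.mvPolynomialX (Fin n) (Fin n) k).det = 0 := by
    apply MvPolynomial.funext
    intro x
    rw [map_mul, map_sub, map_pow, hdet, map_zero]
    by_cases hx : (Matrix.of fun i j => x (i, j)).det = 0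
    · rw [hx, mul_zero]
    · have h2 := hinv _ hx
      rw [hev] at h2
      have h3 : (fun p : Fin n × Fin n => (Matrix.of fun i j => x (i, j)) p.1 p.2) = x := by
        funext p; rfl
      rw [h3] at h2
      rw [h2, sub_self, zero_mul]
  have hF : F = (Matrix.mvPolynomialX (Fin n) (Fin n) k).det ^ W := by
    rcases mul_eq_zero.1 hpoly with h | h
    · exact sub_eq_zero.1 h
    · exact absurd h (Matrix.det_mvPolynomialX_ne_zero (Fin n) k)
  rw [hev]
  conv_lhs => rw [hF]
  rw [map_pow, hdet]
  rfl

end Pool.Agent.Y108.SD
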